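import Pool.Agent.W95.EQ.Stm
import Pool.Agent.W174.BK.Ker

/-!
# EQM-KLIM: limits of the kernels at all points of the hyperbolic part
-/

open Polynomial Topology Filter MeasureTheory
open scoped ENNReal

namespace Pool.Agent.W196.EQ

open Pool.Agent.W95.BK Pool.Agent.W95.EQ
open Pool.Agent.W174.BK.Ker (lam_zero tendsto_cl gauss_lam hk_gauss)

universe u

/-- points of the hyperbolic part have positive radius (complete fields) -/
theorem radius_pos (hV : S_VAL.{u}) (hI : S_ISO.{u}) (hG : S_GLAM.{u}) {K : Type u}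
    [NontriviallyNormedField K] [IsUltrametricDist K] [CompleteSpace K] [IsAlgClosed K]
    (x : BA K) (hx : HK x) : ∃ r : ℝ, 0 < r ∧ ∀ c : K, r ≤ lam x c := by
  by_contra hcon
  push Not at hcon
  have h0 : ∀ n : ℕ, ∃ c : K, lam x c < 1 / ((n : ℝ) + 1) := fun n => hcon _ (by positivity)
  choose c hc using h0
  have hlim : Tendsto (fun n : ℕ => 1 / ((n : ℝ) + 1)) atTop (𝓝 0) :=
    tendsto_one_div_add_atTop_nhds_zero_nat
  have hcau : CauchySeq c := by
    rw [Metric.cauchySeq_iff']
    intro ε hε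
    obtain ⟨N, hN⟩ := (hlim.eventually (gt_mem_nhds hε)).exists_forall_of_atTop
    refine ⟨N, fun n hn => ?_⟩
    rw [dist_eq_norm]
    have h1 := (hI K x (c n) (c N)).2.1
    have h2 : lam x (c n) < ε := (hc n).trans (hN n hn)
    have h3 : lam x (c N) < ε := (hc N).trans (hN N le_rfl)
    exact lt_of_le_of_lt h1 (max_lt h2 h3)
  obtain ⟨a, ha⟩ := cauchySeq_tendsto_of_complete hcau
  have hna : Tendsto (fun n => ‖a - c n‖) atTop (𝓝 0) := by
    have := (tendsto_const_nhds (x := a)).sub ha
    rw [sub_self] at this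
    simpa using this.norm
  have hla : lam x a ≤ 0 := by
    have h1 : Tendsto (fun n : ℕ => max (1 / ((n : ℝ) + 1)) ‖a - c n‖) atTop (𝓝 (max 0 0)) :=
      hlim.max hna
    rw [max_self] at h1
    refine ge_of_tendsto h1 (Eventually.of_forall fun n => ?_)
    exact ((hI K x a (c n)).1).trans (max_le_max (hc n).le le_rfl)
  have hla0 : lam x a = 0 := le_antisymm hla (x.nonneg' _)
  have hlw : ∀ w : K, lam x w = lam (cl a) w := by
    intro w
    rw [(hG K a w).1]
    by_cases hw : w = a
    · rw [hw, hla0, sub_self, norm_zero]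
    · have h1 := (hI K x w a).2.2.1
      rw [hla0] at h1
      rw [h1 (norm_pos_iff.mpr (sub_ne_zero.mpr hw)), norm_sub_rev]
  apply hx a
  ext h
  rw [hV K x h, hV K (cl a) h]
  congr 2
  apply Multiset.map_congr rfl
  intro w _
  exact hlw w

/-- the uniform estimate for `log λ_y(b)` as `b → x` -/
theorem claim (hEV : S_EV.{u}) (hV : S_VAL.{u}) (hI : S_ISO.{u}) (hG : S_GLAM.{u}) {K : Type u}
    [NontriviallyNormedField K] [IsUltrametricDist K] [CompleteSpace K] [IsAlgClosed K]
    (x : BA K) (hx : HK x) : ∃ C : ℝ, ∀ y : BA K, ∀ᶠ b in toward (x : P1B K),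
      0 < lam y b ∧ |Real.log (lam y b) - Real.log (max 1 (y X))| ≤ C := by
  obtain ⟨r, hr, hrc⟩ := radius_pos hV hI hG x hx
  set A : ℝ := x X with hA
  have hAr : r ≤ A := by
    have := hrc 0
    rwa [lam_zero] at this
  have hA0 : 0 < A := lt_of_lt_of_le hr hAr
  set ε : ℝ := min 1 (r / 2 / (A + 1)) with hε
  have hε0 : 0 < ε := by
    apply lt_min one_pos
    positivity
  refine ⟨max (Real.log (A + 1)) (-Real.log ε), fun y => ?_⟩
  have hb0 : Tendsto (fun b : K => ‖b‖) (toward (x : P1B K)) (𝓝 A) := by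
    have := tendsto_cl hEV x X
    simpa using this
  have hbA : ∀ᶠ b in toward (x : P1B K), ‖b‖ < A + 1 :=
    hb0.eventually (gt_mem_nhds (by linarith))
  have hm0 : 0 < max 1 (y X) := lt_max_of_lt_left one_pos
  have hup : ∀ᶠ b in toward (x : P1B K), lam y b ≤ (A + 1) * max 1 (y X) := by
    filter_upwards [hbA] with b hb
    have h1 := (hI K y b 0).1
    rw [sub_zero, lam_zero] at h1
    refine h1.trans (max_le ?_ ?_)
    · have h2 : y X ≤ max 1 (y X) := le_max_right _ _
      nlinarith
    · have h2 : (1 : ℝ) ≤ max 1 (y X) := le_max_left _ _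
      nlinarith
  have hlow : ∀ᶠ b in toward (x : P1B K), ε * max 1 (y X) ≤ lam y b := by
    rcases lt_or_ge (A + 1) (y X) with hy | hy
    · filter_upwards [hbA] with b hb
      have h1 := (hI K y b 0).2.2.2
      rw [sub_zero, lam_zero] at h1
      rw [h1 (hb.trans hy), max_eq_right (by linarith)]
      have h2 : ε ≤ 1 := min_le_left _ _
      nlinarith
    · have hmax : max 1 (y X) ≤ A + 1 := max_le (by linarith) hy
      have h3 : ε * max 1 (y X) ≤ r / 2 := by
        calc ε * max 1 (y X) ≤ (r / 2 / (A + 1)) * (A + 1) :=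
              mul_le_mul (min_le_right _ _) hmax hm0.le (by positivity)
          _ = r / 2 := by field_simp
      by_cases hex : ∃ c : K, lam y c < lam x c
      · obtain ⟨c, hc⟩ := hex
        have hbc : Tendsto (fun b : K => ‖b - c‖) (toward (x : P1B K)) (𝓝 (lam x c)) := by
          have := tendsto_cl hEV x (X - C c)
          simpa [lam] using this
        have h4 : r / 2 < lam x c := by
          have := hrc c
          linarith
        filter_upwards [hbc.eventually (lt_mem_nhds hc), hbc.eventually (lt_mem_nhds h4)]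
          with b hb1 hb2
        rw [(hI K y b c).2.2.1 hb1]
        linarith
      · push Not at hex
        refine Eventually.of_forall fun b => ?_
        have h4 := hex b
        have h5 := hrc b
        linarith
  filter_upwards [hup, hlow] with b h1 h2
  have hεm : 0 < ε * max 1 (y X) := mul_pos hε0 hm0
  have hl0 : 0 < lam y b := lt_of_lt_of_le hεm h2
  refine ⟨hl0, ?_⟩
  have e1 := Real.log_le_log hl0 h1
  have e2 := Real.log_le_log hεm h2
  rw [Real.log_mul (by linarith) hm0.ne'] at e1
  rw [Real.log_mul hε0.ne' hm0.ne'] at e2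
  rw [abs_le]
  constructor
  · have := le_max_right (Real.log (A + 1)) (-Real.log ε)
    linarith
  · have := le_max_left (Real.log (A + 1)) (-Real.log ε)
    linarith

theorem main (hEV : S_EV.{u}) (hV : S_VAL.{u}) (hI : S_ISO.{u}) (hG : S_GLAM.{u})
    (hD : S_DENSE.{u}) (hT : S_T1.{u}) (hS : S_SUMK.{u}) (hC : S_KERC.{u}) (hGr : S_GREEN.{u})
    (hA : S_ACT.{u}) : S_KLIM.{u} := by
  intro K _ _ _ _ R hd x hx a s t hs ht
  obtain ⟨C, hCl⟩ := claim hEV hV hI hG x hx
  obtain ⟨B, hB, hgr⟩ := hGr K R hd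
  have hd1 : (1 : ℝ) < R.d := by exact_mod_cast (by omega : 1 < R.d)
  have hd0 : (0 : ℝ) < R.d := by linarith
  have hne := hD K (x : P1B K)
  -- the estimate at one Gauss point
  have hone : ∀ (f : RMap K) (r : ℝ) (hr : 0 < r), ∀ᶠ b in toward (x : P1B K),
      |Real.log (gn a r (f.P - Polynomial.C b * f.Q)) -
        Real.log (max (gn a r f.P) (gn a r f.Q))| ≤ C := by
    intro f r hr
    obtain ⟨y, -, hy, -, hl⟩ := (hA K f).1 (gauss a r hr) (hk_gauss hG a r hr)
    have hQ : gn a r f.Q ≠ 0 := by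
      intro h0
      have h1 : f.act ((gauss a r hr : BA K) : P1B K) = OnePoint.infty := by
        have h2 : ¬ (gauss a r hr f.Q ≠ 0) := by
          rw [not_not]
          exact h0
        show (if h : gauss a r hr f.Q ≠ 0 then ((push f (gauss a r hr) h : BA K) : P1B K)
          else OnePoint.infty) = OnePoint.infty
        rw [dif_neg h2]
      rw [h1] at hy
      exact OnePoint.infty_ne_coe y hy
    have hQ' : 0 < gn a r f.Q := lt_of_le_of_ne ((gauss a r hr).nonneg' f.Q) (Ne.symm hQ)
    have hl' : ∀ b : K, gn a r (f.P - Polynomial.C b * f.Q) = lam y b * gn a r f.Q := by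
      intro b
      have h1 : lam y b = gn a r (f.P - Polynomial.C b * f.Q) / gn a r f.Q := hl b
      rw [h1, div_mul_cancel₀ _ hQ]
    have hX : y X = gn a r f.P / gn a r f.Q := by
      have h1 := hl' 0
      rw [lam_zero, C_0, zero_mul, sub_zero] at h1
      rw [h1, mul_div_cancel_right₀ _ hQ]
    have hmax : max (gn a r f.P) (gn a r f.Q) = max 1 (y X) * gn a r f.Q := by
      rw [max_mul_of_nonneg _ _ hQ'.le, hX, one_mul, div_mul_cancel₀ _ hQ, max_comm]
    filter_upwards [hCl y] with b hb
    rw [hl' b, hmax, Real.log_mul hb.1.ne' hQ,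
      Real.log_mul (lt_max_of_lt_left one_pos).ne' hQ]
    have : Real.log (lam y b) + Real.log (gn a r f.Q) -
        (Real.log (max 1 (y X)) + Real.log (gn a r f.Q)) =
        Real.log (lam y b) - Real.log (max 1 (y X)) := by ring
    rw [this]
    exact hb.2
  have E2 : ∀ n : ℕ, |pushFun (R.iter n) (Pool.Agent.W95.BK.ker a s t) (x : P1B K) -
      (Real.log (max (gn a t (R.iter n).P) (gn a t (R.iter n).Q)) -
      Real.log (max (gn a s (R.iter n).P) (gn a s (R.iter n).Q)))| ≤ 2 * C := by
    intro n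
    have T1 := hT K (R.iter n) x hx ⟨Pool.Agent.W95.BK.ker a s t, hC K a s t hs ht⟩
    have T2 := (T1.sub_const (Real.log (max (gn a t (R.iter n).P) (gn a t (R.iter n).Q)) -
      Real.log (max (gn a s (R.iter n).P) (gn a s (R.iter n).Q)))).abs
    refine le_of_tendsto T2 ?_
    filter_upwards [hone (R.iter n) t ht, hone (R.iter n) s hs] with b h1 h2
    have h3 := hS K (R.iter n) b a s t hs ht
    change |((fib (R.iter n) b).map (Pool.Agent.W95.BK.ker a s t)).sum - _| ≤ _
    rw [h3]
    rw [abs_le] at h1 h2 ⊢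
    constructor <;> linarith [h1.1, h1.2, h2.1, h2.2]
  have hz : ∀ c : ℝ, Tendsto (fun n : ℕ => c / (R.d : ℝ) ^ n) atTop (𝓝 0) := by
    intro c
    have := (tendsto_pow_atTop_nhds_zero_of_lt_one (r := ((R.d : ℝ))⁻¹) (by positivity)
      (inv_lt_one_of_one_lt₀ hd1)).const_mul c
    rw [mul_zero] at this
    refine this.congr fun n => ?_
    rw [inv_pow, div_eq_mul_inv]
  have E3 : ∀ (r : ℝ) (hr : 0 < r), Tendsto (fun n : ℕ =>
      Real.log (max (gn a r (R.iter n).P) (gn a r (R.iter n).Q)) / (R.d : ℝ) ^ n) atTop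
      (𝓝 (gr R (gauss a r hr))) := by
    intro r hr
    have h1 := hgr (gauss a r hr)
    rw [tendsto_iff_norm_sub_tendsto_zero]
    refine squeeze_zero (fun n => norm_nonneg _) (fun n => ?_) (hz B)
    rw [Real.norm_eq_abs]
    exact (h1.2 n).2
  have E4 := (E3 t ht).sub (E3 s hs)
  have E5 : Tendsto (fun n : ℕ => pushFun (R.iter n) (Pool.Agent.W95.BK.ker a s t) (x : P1B K) /
      (R.d : ℝ) ^ n - (Real.log (max (gn a t (R.iter n).P) (gn a t (R.iter n).Q)) /
      (R.d : ℝ) ^ n - Real.log (max (gn a s (R.iter n).P) (gn a s (R.iter n).Q)) /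
      (R.d : ℝ) ^ n)) atTop (𝓝 0) := by
    rw [tendsto_zero_iff_norm_tendsto_zero]
    refine squeeze_zero (fun n => norm_nonneg _) (fun n => ?_) (hz (2 * C))
    have hp : 0 < (R.d : ℝ) ^ n := by positivity
    rw [← sub_div, ← sub_div, norm_div, Real.norm_eq_abs, Real.norm_of_nonneg hp.le]
    exact div_le_div_of_nonneg_right (E2 n) hp.le
  have E6 := E5.add E4
  rw [zero_add] at E6
  refine E6.congr fun n => ?_
  ring

end Pool.Agent.W196.EQ
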